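import Mathlib
import Pool.Agent.Results.MP_04c77c_pr.NotConvex

set_option autoImplicit false

open MeasureTheory ProbabilityTheory Filter
open scoped ENNReal NNReal Topology

namespace Pool.Agent.Results.MP_04c77c_pr.PowerMeans

open Pool.Agent.Results.MP_04c77c_pr.NotConvex

/-! The entropy power region `Γ_d(n)` (`n ≥ 3`, any dimension `d ≥ 1`, in particular `d = 1`) and
coordinatewise power means of exponent `p ≠ 0`. -/

variable {d : ℕ}

/-- A law with bounded density and bounded support: bounds for the entropy. -/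
lemma entropy_bounds (μ : Measure (Fin d → ℝ)) [IsProbabilityMeasure μ] {m M : ℝ} (hm : 0 < m)
    (hM : 0 < M) (h1 : μ ≤ ENNReal.ofReal m⁻¹ • (volume : Measure (Fin d → ℝ)))
    {K : Set (Fin d → ℝ)} (hK : MeasurableSet K) (hμK : μ Kᶜ = 0)
    (hKM : volume K ≤ ENNReal.ofReal M) :
    HasFiniteEntropy μ ∧ Real.log m ≤ diffEntropy μ ∧ diffEntropy μ ≤ Real.log M := by
  have hac : μ ≪ volume := Measure.absolutelyContinuous_of_le_smul h1
  have hKfin : volume K < ∞ := lt_of_le_of_lt hKM ENNReal.ofReal_lt_top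
  set f := μ.rnDeriv volume with hf
  have hfm : Measurable f := Measure.measurable_rnDeriv _ _
  have hμf : (volume : Measure (Fin d → ℝ)).withDensity f = μ :=
    Measure.withDensity_rnDeriv_eq _ _ hac
  have hle : ∀ᵐ x ∂(volume : Measure (Fin d → ℝ)), f x ≤ ENNReal.ofReal m⁻¹ := by
    refine ae_le_of_forall_setLIntegral_le_of_sigmaFinite hfm fun s hs _ => ?_
    rw [← withDensity_apply _ hs, hμf, setLIntegral_const]
    exact h1 s
  have hz : ∀ᵐ x ∂(volume : Measure (Fin d → ℝ)), x ∈ Kᶜ → f x = 0 := by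
    rw [← hμf, withDensity_apply _ hK.compl] at hμK
    exact (setLIntegral_eq_zero_iff hK.compl hfm).1 hμK
  have hB : (0 : ℝ) ≤ m⁻¹ := by positivity
  obtain ⟨C, hC⟩ := (isCompact_Icc (a := (0 : ℝ)) (b := m⁻¹)).exists_bound_of_continuousOn
    Real.continuous_negMulLog.continuousOn
  have hF : ∀ᵐ x ∂(volume : Measure (Fin d → ℝ)), (f x).toReal ∈ Set.Icc 0 m⁻¹ := by
    filter_upwards [hle] with x hx
    exact ⟨ENNReal.toReal_nonneg, ENNReal.toReal_le_of_le_ofReal hB hx⟩
  have hint : Integrable (fun x => Real.negMulLog (f x).toReal) volume := by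
    have hg : Integrable (K.indicator fun _ => C) (volume : Measure (Fin d → ℝ)) :=
      (integrable_indicator_iff hK).2 (integrableOn_const hKfin.ne)
    refine hg.mono' (Real.continuous_negMulLog.measurable.comp
      hfm.ennreal_toReal).aestronglyMeasurable ?_
    filter_upwards [hF, hz] with x hx hx'
    by_cases hxK : x ∈ K
    · rw [Set.indicator_of_mem hxK]
      exact hC _ hx
    · rw [Set.indicator_of_notMem hxK, hx' hxK]
      simp
  have hintf : Integrable (fun x => (f x).toReal) (volume : Measure (Fin d → ℝ)) :=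
    Measure.integrable_toReal_rnDeriv
  have hone : ∫ x, (f x).toReal = 1 := by
    rw [hf, Measure.integral_toReal_rnDeriv hac]
    simp
  refine ⟨⟨hac, hint⟩, ?_, ?_⟩
  · have key : ∫ x, Real.log m * (f x).toReal ≤ ∫ x, Real.negMulLog (f x).toReal := by
      refine integral_mono_ae (hintf.const_mul _) hint ?_
      filter_upwards [hF] with x hx
      rcases hx.1.eq_or_lt with h0 | h0
      · rw [← h0]; simp
      · have : Real.log (f x).toReal ≤ -Real.log m := by
          rw [← Real.log_inv]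
          exact Real.log_le_log h0 hx.2
        rw [Real.negMulLog]
        nlinarith
    rw [integral_const_mul, hone, mul_one] at key
    exact key
  · have hg : Integrable (K.indicator fun _ => M⁻¹) (volume : Measure (Fin d → ℝ)) :=
      (integrable_indicator_iff hK).2 (integrableOn_const hKfin.ne)
    have key : ∫ x, Real.negMulLog (f x).toReal ≤
        ∫ x, (Real.log M * (f x).toReal + (K.indicator (fun _ => M⁻¹) x - (f x).toReal)) := by
      refine integral_mono_ae hint ((hintf.const_mul _).add (hg.sub hintf)) ?_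
      filter_upwards [hF, hz] with x hx hx'
      by_cases hxK : x ∈ K
      · simp only [Set.indicator_of_mem hxK]
        rcases hx.1.eq_or_lt with h0 | h0
        · rw [← h0]; simp; positivity
        · have h2 := Real.one_sub_inv_le_log_of_pos (mul_pos h0 hM)
          rw [Real.log_mul h0.ne' hM.ne', mul_inv] at h2
          rw [Real.negMulLog]
          have h3 := mul_le_mul_of_nonneg_left h2 h0.le
          have h4 : (f x).toReal * (1 - (f x).toReal⁻¹ * M⁻¹) = (f x).toReal - M⁻¹ := by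
            field_simp
          rw [h4] at h3
          nlinarith
      · simp only [Set.indicator_of_notMem hxK, hx' hxK]
        simp
    have hsub : Integrable (fun x => K.indicator (fun _ => M⁻¹) x - (f x).toReal)
        (volume : Measure (Fin d → ℝ)) := hg.sub hintf
    rw [integral_add (hintf.const_mul _) hsub, integral_const_mul, hone, mul_one,
      integral_sub hg hintf, hone, integral_indicator hK, setIntegral_const, smul_eq_mul] at key
    have h5 : (volume : Measure (Fin d → ℝ)).real K ≤ M := by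
      rw [Measure.real]
      exact ENNReal.toReal_le_of_le_ofReal hM.le hKM
    have h6 : (volume : Measure (Fin d → ℝ)).real K * M⁻¹ ≤ 1 := by
      rw [← div_eq_mul_inv, div_le_one hM]
      exact h5
    have h7 : diffEntropy μ = ∫ x, Real.negMulLog (f x).toReal := rfl
    rw [h7]
    linarith

/-- Bounded densities are stable under convolution. -/
lemma conv_le (ν μ : Measure (Fin d → ℝ)) [IsProbabilityMeasure ν] [SFinite μ] {c : ℝ≥0∞}
    (h : μ ≤ c • (volume : Measure (Fin d → ℝ))) :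
    ν.conv μ ≤ c • (volume : Measure (Fin d → ℝ)) := by
  refine Measure.le_iff.2 fun s hs => ?_
  rw [Measure.conv, Measure.map_apply (by fun_prop) hs,
    Measure.prod_apply (hs.preimage (by fun_prop))]
  have key : ∀ x : Fin d → ℝ, μ (Prod.mk x ⁻¹' ((fun p : (Fin d → ℝ) × (Fin d → ℝ) =>
      p.1 + p.2) ⁻¹' s)) ≤ c * volume s := by
    intro x
    refine (h _).trans ?_
    have h2 : Prod.mk x ⁻¹' ((fun p : (Fin d → ℝ) × (Fin d → ℝ) => p.1 + p.2) ⁻¹' s) =
        (fun y => x + y) ⁻¹' s := rfl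
    rw [h2, Measure.smul_apply, measure_preimage_add, smul_eq_mul]
  refine (lintegral_mono key).trans ?_
  rw [lintegral_const, measure_univ, mul_one]
  rfl

/-- The fair mixture of the point masses at `0` and at `y`. -/
noncomputable def hf (y : Fin d → ℝ) : Measure (Fin d → ℝ) :=
  (2⁻¹ : ℝ≥0∞) • Measure.dirac 0 + (2⁻¹ : ℝ≥0∞) • Measure.dirac y

instance (y : Fin d → ℝ) : IsProbabilityMeasure (hf y) := by
  constructor
  simp [hf, ENNReal.inv_two_add_inv_two]

lemma hf_conv (y : Fin d → ℝ) (μ : Measure (Fin d → ℝ)) [IsFiniteMeasure μ]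
    {s : Set (Fin d → ℝ)} (hs : MeasurableSet s) :
    (hf y).conv μ s = 2⁻¹ * μ s + 2⁻¹ * μ ((fun x => y + x) ⁻¹' s) := by
  have e1 : (hf y).conv μ = ((2⁻¹ : ℝ≥0∞) • Measure.dirac 0).conv μ +
      ((2⁻¹ : ℝ≥0∞) • Measure.dirac y).conv μ := by
    rw [hf]
    exact Measure.add_conv _ _ _
  rw [e1, Measure.conv_smul_left, Measure.conv_smul_left, Measure.dirac_zero_conv,
    Measure.dirac_conv, Measure.add_apply, Measure.smul_apply, Measure.smul_apply,
    Measure.map_apply (by fun_prop) hs]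
  rfl

/-- Mixing with a disjoint translate halves the density. -/
lemma hf_conv_le (y : Fin d → ℝ) (μ : Measure (Fin d → ℝ)) [IsFiniteMeasure μ] {c : ℝ≥0∞}
    {Q : Set (Fin d → ℝ)} (hQ : MeasurableSet Q)
    (h : μ ≤ c • (volume : Measure (Fin d → ℝ)).restrict Q) (hy : ∀ x ∈ Q, y + x ∉ Q) :
    (hf y).conv μ ≤ (2⁻¹ * c) • (volume : Measure (Fin d → ℝ)).restrict
      (Q ∪ (fun x => -y + x) ⁻¹' Q) := by
  refine Measure.le_iff.2 fun s hs => ?_
  have hQ' : MeasurableSet ((fun x => -y + x) ⁻¹' Q) := hQ.preimage (by fun_prop)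
  rw [hf_conv y μ hs, Measure.smul_apply, Measure.restrict_apply hs, smul_eq_mul]
  have hs' : MeasurableSet ((fun x => y + x) ⁻¹' s) := hs.preimage (by fun_prop)
  have h1 : μ s ≤ c * volume (s ∩ Q) := by
    refine (h s).trans ?_
    rw [Measure.smul_apply, Measure.restrict_apply hs, smul_eq_mul]
  have h2 : μ ((fun x => y + x) ⁻¹' s) ≤ c * volume (s ∩ (fun x => -y + x) ⁻¹' Q) := by
    refine (h _).trans ?_
    rw [Measure.smul_apply, Measure.restrict_apply hs', smul_eq_mul]
    have e : (fun x => y + x) ⁻¹' s ∩ Q = (fun x => y + x) ⁻¹' (s ∩ (fun x => -y + x) ⁻¹' Q) := by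
      ext x
      simp
    rw [e, measure_preimage_add]
  have h3 : volume (s ∩ Q) + volume (s ∩ (fun x => -y + x) ⁻¹' Q) =
      volume (s ∩ (Q ∪ (fun x => -y + x) ⁻¹' Q)) := by
    rw [Set.inter_union_distrib_left, measure_union _ (hs.inter hQ')]
    rw [Set.disjoint_left]
    rintro x ⟨_, hx⟩ ⟨_, hx'⟩
    refine hy _ hx' ?_
    simpa using hx
  calc 2⁻¹ * μ s + 2⁻¹ * μ ((fun x => y + x) ⁻¹' s)
      ≤ 2⁻¹ * (c * volume (s ∩ Q)) + 2⁻¹ * (c * volume (s ∩ (fun x => -y + x) ⁻¹' Q)) :=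
        add_le_add (mul_le_mul_right h1 _) (mul_le_mul_right h2 _)
    _ = 2⁻¹ * c * volume (s ∩ (Q ∪ (fun x => -y + x) ⁻¹' Q)) := by
        rw [← h3]
        ring

section sums

variable {n : ℕ}

/-- The law of the sum over `S` of independent vectors with laws `L i`. -/
noncomputable def sumLaw (L : Fin n → Measure (Fin d → ℝ)) (S : Finset (Fin n)) :
    Measure (Fin d → ℝ) :=
  (Measure.pi L).map (∑ i ∈ S, fun ω : Fin n → (Fin d → ℝ) => ω i)

lemma measurable_sum' (S : Finset (Fin n)) :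
    Measurable (∑ i ∈ S, fun ω : Fin n → (Fin d → ℝ) => ω i) := by
  have : (∑ i ∈ S, fun ω : Fin n → (Fin d → ℝ) => ω i) = fun ω => ∑ i ∈ S, ω i := by
    ext ω; simp
  rw [this]
  exact Finset.measurable_sum S (fun i _ => measurable_pi_apply i)

variable (L : Fin n → Measure (Fin d → ℝ)) [∀ i, IsProbabilityMeasure (L i)]

instance (S : Finset (Fin n)) : IsProbabilityMeasure (sumLaw L S) :=
  Measure.isProbabilityMeasure_map (measurable_sum' S).aemeasurable

lemma indep_all : iIndepFun (fun i (ω : Fin n → (Fin d → ℝ)) => ω i) (Measure.pi L) :=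
  iIndepFun_pi (X := fun _ => id) (fun _ => aemeasurable_id)

lemma sumLaw_singleton (a : Fin n) : sumLaw L {a} = L a := by
  rw [sumLaw, Finset.sum_singleton]
  exact (measurePreserving_eval L a).map_eq

lemma sumLaw_insert {a : Fin n} {S : Finset (Fin n)} (ha : a ∉ S) :
    sumLaw L (insert a S) = (L a).conv (sumLaw L S) := by
  rw [sumLaw, Finset.sum_insert ha]
  have hI : IndepFun (fun ω : Fin n → (Fin d → ℝ) => ω a)
      (∑ i ∈ S, fun ω : Fin n → (Fin d → ℝ) => ω i) (Measure.pi L) :=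
    ((indep_all L).indepFun_finsetSum_of_notMem (fun i => measurable_pi_apply i) ha).symm
  rw [hI.map_add_eq_map_conv_map (measurable_pi_apply a) (measurable_sum' S),
    show (Measure.pi L).map (fun ω : Fin n → (Fin d → ℝ) => ω a) = L a from
      (measurePreserving_eval L a).map_eq]
  rfl

/-- The support of the law of a sum. -/
lemma sumLaw_supp (K : Fin n → Set (Fin d → ℝ)) (hL : ∀ i, L i (K i)ᶜ = 0)
    (hKm : ∀ i, MeasurableSet (K i)) (S : Finset (Fin n)) {K' : Set (Fin d → ℝ)}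
    (hK' : MeasurableSet K') (h : ∀ ω : Fin n → (Fin d → ℝ), (∀ i, ω i ∈ K i) →
      ∑ i ∈ S, ω i ∈ K') : sumLaw L S K'ᶜ = 0 := by
  have h1 : ∀ᵐ ω ∂(Measure.pi L), ∀ i, ω i ∈ K i := by
    rw [ae_all_iff]
    intro i
    have h2 := (measurePreserving_eval L i).measure_preimage
      (hKm i).compl.nullMeasurableSet
    rw [hL i] at h2
    exact h2
  rw [sumLaw, Measure.map_apply (measurable_sum' S) hK'.compl]
  rw [← compl_mem_ae_iff, Set.preimage_compl, compl_compl]
  filter_upwards [h1] with ω hω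
  have h3 := h ω hω
  simpa using h3

lemma sumLaw_le {c : ℝ≥0∞} (hL : ∀ i, L i ≤ c • (volume : Measure (Fin d → ℝ)))
    {S : Finset (Fin n)} (hS : S.Nonempty) :
    sumLaw L S ≤ c • (volume : Measure (Fin d → ℝ)) := by
  induction hS using Finset.Nonempty.cons_induction with
  | singleton a =>
    rw [sumLaw_singleton]
    exact hL a
  | cons a S ha hS ih =>
    rw [Finset.cons_eq_insert, sumLaw_insert L ha]
    exact conv_le _ _ ih

lemma vol_box (a : Fin d → ℝ) {r : ℝ} (hr : 0 ≤ r) :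
    volume (Set.Icc a (fun j => a j + r)) = ENNReal.ofReal (r ^ d) := by
  rw [Real.volume_Icc_pi]
  simp [ENNReal.ofReal_pow hr]

/-- Membership in `Γ_d(n)`, with a bound. -/
lemma mem_gamma {C : ℝ} (hC : 0 < C)
    (hL : ∀ i, L i ≤ ENNReal.ofReal C⁻¹ • (volume : Measure (Fin d → ℝ))) {R : ℝ} (hR : 0 < R)
    (hK : ∀ i, L i (Set.Icc (fun _ => -R) (fun _ => R))ᶜ = 0) :
    (fun S : {S : Finset (Fin n) // S.Nonempty} => entropyPower (sumLaw L S.1)) ∈ GammaDim d n ∧
      ∀ S : Finset (Fin n), S.Nonempty → entropyPower (sumLaw L S) ≤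
        Real.exp ((2 / (d : ℝ)) * Real.log ((2 * (n * R)) ^ d)) := by
  have key : ∀ S : Finset (Fin n), S.Nonempty → HasFiniteEntropy (sumLaw L S) ∧
      diffEntropy (sumLaw L S) ≤ Real.log ((2 * (n * R)) ^ d) := by
    intro S hS
    have hn : 0 < n := by
      obtain ⟨a, _⟩ := hS
      exact lt_of_le_of_lt (Nat.zero_le _) a.2
    have hn' : (0 : ℝ) < n := by exact_mod_cast hn
    have h1 := entropy_bounds (sumLaw L S) (m := C) (M := (2 * (n * R)) ^ d) hC (by positivity)
      (sumLaw_le L hL hS) (K := Set.Icc (fun _ => -(n * R)) (fun j => -(n * R) + 2 * (n * R)))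
      measurableSet_Icc ?_ ?_
    · exact ⟨h1.1, h1.2.2⟩
    · refine sumLaw_supp L (fun _ => Set.Icc (fun _ => -R) (fun _ => R)) hK
        (fun _ => measurableSet_Icc) S measurableSet_Icc fun ω hω => ?_
      have hb : ∀ j, |(∑ i ∈ S, ω i) j| ≤ n * R := by
        intro j
        rw [Finset.sum_apply]
        refine (Finset.abs_sum_le_sum_abs _ _).trans ?_
        refine (Finset.sum_le_card_nsmul S _ R fun i _ => ?_).trans ?_
        · exact abs_le.2 ⟨(hω i).1 j, (hω i).2 j⟩
        · rw [nsmul_eq_mul]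
          refine mul_le_mul_of_nonneg_right ?_ hR.le
          have := S.card_le_univ
          rw [Fintype.card_fin] at this
          exact_mod_cast this
      refine ⟨fun j => ?_, fun j => ?_⟩
      · exact (abs_le.1 (hb j)).1
      · have := (abs_le.1 (hb j)).2
        change (∑ i ∈ S, ω i) j ≤ -(n * R) + 2 * (n * R)
        linarith
    · rw [vol_box _ (by positivity)]
  refine ⟨⟨Fin n → (Fin d → ℝ), inferInstance, Measure.pi L, inferInstance, fun i ω => ω i,
    fun i => measurable_pi_apply i, indep_all L, fun S => (key S.1 S.2).1, fun S => rfl⟩, ?_⟩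
  intro S hS
  rw [entropyPower, Real.exp_le_exp]
  exact mul_le_mul_of_nonneg_left (key S hS).2 (by positivity)

end sums

/-- The entropy power of the uniform law on a set of volume `m`. -/
noncomputable def qq (d : ℕ) (m : ℝ) : ℝ := Real.exp ((2 / (d : ℝ)) * Real.log m)

lemma ep_bounds (hd : 1 ≤ d) (μ : Measure (Fin d → ℝ)) [IsProbabilityMeasure μ] {m t : ℝ}
    (hm : 0 < m) (ht : 1 ≤ t) (h1 : μ ≤ ENNReal.ofReal m⁻¹ • (volume : Measure (Fin d → ℝ)))
    {K : Set (Fin d → ℝ)} (hK : MeasurableSet K) (hμK : μ Kᶜ = 0)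
    (hKM : volume K ≤ ENNReal.ofReal (m * t ^ d)) :
    qq d m ≤ entropyPower μ ∧ entropyPower μ ≤ qq d m * t ^ 2 := by
  have ht0 : 0 < t := by linarith
  have hd' : (0 : ℝ) < d := by exact_mod_cast hd
  obtain ⟨-, h2, h3⟩ := entropy_bounds μ hm (by positivity) h1 hK hμK hKM
  have hc : 0 ≤ 2 / (d : ℝ) := by positivity
  refine ⟨?_, ?_⟩
  · rw [qq, entropyPower, Real.exp_le_exp]
    exact mul_le_mul_of_nonneg_left h2 hc
  · have h4 : t ^ 2 = Real.exp (2 * Real.log t) := by
      rw [two_mul, Real.exp_add, Real.exp_log ht0, sq]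
    rw [qq, entropyPower, h4, ← Real.exp_add, Real.exp_le_exp]
    refine (mul_le_mul_of_nonneg_left h3 hc).trans (le_of_eq ?_)
    rw [Real.log_mul hm.ne' (by positivity), Real.log_pow]
    field_simp

/-- A box. -/
def box (y : Fin d → ℝ) (r : ℝ) : Set (Fin d → ℝ) := Set.Icc y (fun j => y j + r)

lemma measurable_box (y : Fin d → ℝ) (r : ℝ) : MeasurableSet (box y r) := measurableSet_Icc

lemma mem_box {y x : Fin d → ℝ} {r : ℝ} : x ∈ box y r ↔ ∀ j, y j ≤ x j ∧ x j ≤ y j + r := by
  rw [box, Set.mem_Icc, Pi.le_def, Pi.le_def]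
  exact ⟨fun h j => ⟨h.1 j, h.2 j⟩, fun h => ⟨fun j => (h j).1, fun j => (h j).2⟩⟩

/-- The uniform law on a cube. -/
noncomputable def UU (d : ℕ) (r : ℝ) : Measure (Fin d → ℝ) :=
  ENNReal.ofReal (r ^ d)⁻¹ • (volume : Measure (Fin d → ℝ)).restrict (box 0 r)

lemma UU_prob {r : ℝ} (hr : 0 < r) : IsProbabilityMeasure (UU d r) := by
  constructor
  rw [UU, Measure.smul_apply, Measure.restrict_apply MeasurableSet.univ, Set.univ_inter, box,
    vol_box _ hr.le, smul_eq_mul, ← ENNReal.ofReal_mul (by positivity),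
    inv_mul_cancel₀ (by positivity), ENNReal.ofReal_one]

lemma UU_le (r : ℝ) : UU d r ≤ ENNReal.ofReal (r ^ d)⁻¹ • (volume : Measure (Fin d → ℝ)) := by
  refine Measure.le_iff.2 fun s hs => ?_
  rw [UU, Measure.smul_apply, Measure.smul_apply]
  exact mul_le_mul_right (Measure.restrict_apply_le _ _) _

lemma UU_supp {r : ℝ} {s : Set (Fin d → ℝ)} (hs : MeasurableSet s) (h : ∀ x ∈ box 0 r, x ∉ s) :
    UU d r s = 0 := by
  rw [UU, Measure.smul_apply, Measure.restrict_apply hs]
  have : s ∩ box 0 r = ∅ := by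
    ext x
    simp only [Set.mem_inter_iff, Set.mem_empty_iff_false, iff_false, not_and]
    intro h1 h2
    exact h x h2 h1
  rw [this]
  simp

lemma hfU_supp (y : Fin d → ℝ) {r : ℝ} (hr : 0 < r) : (hf y).conv (UU d r) (box 0 r ∪ box y r)ᶜ = 0 := by
  have := UU_prob (d := d) hr
  have hm : MeasurableSet (box (0 : Fin d → ℝ) r ∪ box y r)ᶜ :=
    ((measurable_box _ _).union (measurable_box _ _)).compl
  rw [hf_conv y _ hm, UU_supp hm, UU_supp (hm.preimage (by fun_prop))]
  · simp
  · intro x hx hx'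
    apply hx'
    right
    rw [mem_box] at hx ⊢
    intro j
    have := hx j
    simp only [Pi.zero_apply, Pi.add_apply] at this ⊢
    constructor <;> linarith
  · intro x hx hx'
    exact hx' (Or.inl hx)

section four

variable {n : ℕ} (a b c : Fin n) (ya yb : Fin d → ℝ) (ε : ℝ)

/-- The laws of the vectors. -/
noncomputable def law (i : Fin n) : Measure (Fin d → ℝ) :=
  if i = a then (hf ya).conv (UU d ε) else if i = b then (hf yb).conv (UU d ε) else UU d 1

variable {ε} (hε : 0 < ε) (hε1 : ε ≤ 1)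

include hε in
lemma law_prob (i : Fin n) : IsProbabilityMeasure (law a b ya yb ε i) := by
  have h1 := UU_prob (d := d) hε
  have h2 := UU_prob (d := d) one_pos
  unfold law
  split_ifs <;> infer_instance

include hε hε1 in
lemma law_le (i : Fin n) :
    law a b ya yb ε i ≤ ENNReal.ofReal (ε ^ d)⁻¹ • (volume : Measure (Fin d → ℝ)) := by
  have h1 := UU_prob (d := d) hε
  have h2 := UU_prob (d := d) one_pos
  unfold law
  split_ifs
  · exact conv_le _ _ (UU_le ε)
  · exact conv_le _ _ (UU_le ε)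
  · refine (UU_le 1).trans (Measure.le_iff.2 fun s _ => ?_)
    rw [Measure.smul_apply, Measure.smul_apply]
    refine mul_le_mul_left (ENNReal.ofReal_le_ofReal ?_) _
    rw [one_pow, inv_one]
    exact (one_le_inv₀ (by positivity)).2 (pow_le_one₀ hε.le hε1)

/-- The supports of the vectors. -/
def supp (i : Fin n) : Set (Fin d → ℝ) :=
  if i = a then box 0 ε ∪ box ya ε else if i = b then box 0 ε ∪ box yb ε else box 0 1

lemma supp_meas (i : Fin n) : MeasurableSet (supp (ε := ε) a b ya yb i) := by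
  unfold supp
  split_ifs
  · exact (measurable_box _ _).union (measurable_box _ _)
  · exact (measurable_box _ _).union (measurable_box _ _)
  · exact measurable_box _ _

include hε in
lemma law_supp (i : Fin n) : law a b ya yb ε i (supp (ε := ε) a b ya yb i)ᶜ = 0 := by
  unfold law supp
  split_ifs
  · exact hfU_supp ya hε
  · exact hfU_supp yb hε
  · exact UU_supp (measurable_box _ _).compl fun x hx hx' => hx' hx

/-- The assumptions on the shifts: the densities of the sums with a unit cube are at most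
`ma⁻¹`, `mb⁻¹`, `mc⁻¹`, and the volumes of the supports are almost `ma`, `mb`, `mc`. -/
structure Shift (ma mb mc : ℝ) : Prop where
  pa : 0 < ma
  pb : 0 < mb
  pc : 0 < mc
  a0 : ∀ j, 0 ≤ ya j ∧ ya j ≤ 8
  b0 : ∀ j, 0 ≤ yb j ∧ yb j ≤ 8
  la : (hf ya).conv (UU d 1) ≤ ENNReal.ofReal ma⁻¹ • (volume : Measure (Fin d → ℝ))
  lb : (hf yb).conv (UU d 1) ≤ ENNReal.ofReal mb⁻¹ • (volume : Measure (Fin d → ℝ))
  lc : (hf ya).conv ((hf yb).conv (UU d 1)) ≤
    ENNReal.ofReal mc⁻¹ • (volume : Measure (Fin d → ℝ))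
  va : ∀ t : ℝ, 1 ≤ t → volume (box (0 : Fin d → ℝ) t ∪ box ya t) ≤ ENNReal.ofReal (ma * t ^ d)
  vb : ∀ t : ℝ, 1 ≤ t → volume (box (0 : Fin d → ℝ) t ∪ box yb t) ≤ ENNReal.ofReal (mb * t ^ d)
  vc : ∀ t : ℝ, 1 ≤ t → volume ((box (0 : Fin d → ℝ) t ∪ box ya t) ∪
    (box yb t ∪ box (ya + yb) t)) ≤ ENNReal.ofReal (mc * t ^ d)

variable {a b c ya yb} {ma mb mc : ℝ} (h : Shift ya yb ma mb mc) (hd : 1 ≤ d) (hab : a ≠ b)
  (hac : a ≠ c) (hbc : b ≠ c)

include h hε hε1 in
lemma point_mem :
    (fun S : {S : Finset (Fin n) // S.Nonempty} =>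
      entropyPower (sumLaw (law a b ya yb ε) S.1)) ∈ GammaDim d n ∧
      ∀ S : Finset (Fin n), S.Nonempty → entropyPower (sumLaw (law a b ya yb ε) S) ≤
        Real.exp ((2 / (d : ℝ)) * Real.log ((2 * (n * 10)) ^ d)) := by
  have h1 := law_prob (n := n) a b ya yb hε
  refine mem_gamma (law a b ya yb ε) (C := ε ^ d) (by positivity)
    (law_le a b ya yb hε hε1) (R := 10) (by norm_num) fun i => ?_
  refine measure_mono_null (Set.compl_subset_compl.2 ?_) (law_supp a b ya yb hε i)
  intro x hx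
  unfold supp at hx
  rw [Set.mem_Icc, Pi.le_def, Pi.le_def]
  have key : ∀ (y : Fin d → ℝ) (r : ℝ), (∀ j, 0 ≤ y j ∧ y j ≤ 8) → r ≤ 1 → x ∈ box y r →
      (∀ j, -10 ≤ x j) ∧ ∀ j, x j ≤ 10 := by
    intro y r hy hr hx
    rw [mem_box] at hx
    refine ⟨fun j => ?_, fun j => ?_⟩
    · have := hy j; have := hx j; linarith
    · have := hy j; have := hx j; linarith
  have h0 : ∀ j, (0 : ℝ) ≤ (0 : Fin d → ℝ) j ∧ (0 : Fin d → ℝ) j ≤ 8 := by
    intro j; simp
  split_ifs at hx
  · rcases hx with hx | hx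
    · exact key 0 ε h0 hε1 hx
    · exact key ya ε h.a0 hε1 hx
  · rcases hx with hx | hx
    · exact key 0 ε h0 hε1 hx
    · exact key yb ε h.b0 hε1 hx
  · exact key 0 1 h0 le_rfl hx

lemma law_c : law a b ya yb ε c = if c = a then (hf ya).conv (UU d ε) else
    if c = b then (hf yb).conv (UU d ε) else UU d 1 := rfl

include hε hd hac hbc in
lemma val_c : entropyPower (sumLaw (law a b ya yb ε) {c}) = 1 := by
  have h1 := law_prob (n := n) a b ya yb hε
  have h2 := UU_prob (d := d) one_pos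
  have e : sumLaw (law a b ya yb ε) {c} = UU d 1 := by
    rw [sumLaw_singleton, law, if_neg hac.symm, if_neg hbc.symm]
  rw [e]
  have h3 := ep_bounds hd (UU d 1) (m := 1) (t := 1) one_pos le_rfl
    (by have := UU_le (d := d) 1; rwa [one_pow] at this) (measurable_box 0 1)
    (UU_supp (measurable_box _ _).compl fun x hx hx' => hx' hx)
    (by rw [box, vol_box _ zero_le_one]; simp)
  have h4 : qq d 1 = 1 := by simp [qq]
  rw [h4] at h3
  linarith [h3.1, h3.2]

include h hε hd hac hbc in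
lemma val_ac : qq d ma ≤ entropyPower (sumLaw (law a b ya yb ε) {a, c}) ∧
    entropyPower (sumLaw (law a b ya yb ε) {a, c}) ≤ qq d ma * (1 + ε) ^ 2 := by
  have h1 := law_prob (n := n) a b ya yb hε
  have h2 := UU_prob (d := d) one_pos
  have h3 := UU_prob (d := d) hε
  have e : sumLaw (law a b ya yb ε) {a, c} = (UU d ε).conv ((hf ya).conv (UU d 1)) := by
    rw [sumLaw_insert _ (by simpa using hac), sumLaw_singleton, law, law, if_pos rfl,
      if_neg hac.symm, if_neg hbc.symm, Measure.conv_comm (hf ya) (UU d ε), Measure.conv_assoc]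
  refine ep_bounds hd _ h.pa (by linarith) ?_ (K := box 0 (1 + ε) ∪ box ya (1 + ε))
    ((measurable_box _ _).union (measurable_box _ _)) ?_ (h.va (1 + ε) (by linarith))
  · rw [e]
    exact conv_le _ _ h.la
  · refine sumLaw_supp _ (supp (ε := ε) a b ya yb) (law_supp a b ya yb hε)
      (supp_meas a b ya yb) _ ((measurable_box _ _).union (measurable_box _ _)) fun ω hω => ?_
    have ha := hω a
    have hc := hω c
    rw [supp, if_pos rfl] at ha
    rw [supp, if_neg hac.symm, if_neg hbc.symm, mem_box] at hc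
    rw [Finset.sum_pair hac]
    rcases ha with ha | ha
    · left
      rw [mem_box] at ha ⊢
      intro j
      have := ha j; have := hc j
      simp only [Pi.add_apply, Pi.zero_apply] at *
      constructor <;> linarith
    · right
      rw [mem_box] at ha ⊢
      intro j
      have := ha j; have := hc j
      simp only [Pi.add_apply, Pi.zero_apply] at *
      constructor <;> linarith

include h hε hd hab hac hbc in
lemma val_bc : qq d mb ≤ entropyPower (sumLaw (law a b ya yb ε) {b, c}) ∧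
    entropyPower (sumLaw (law a b ya yb ε) {b, c}) ≤ qq d mb * (1 + ε) ^ 2 := by
  have h1 := law_prob (n := n) a b ya yb hε
  have h2 := UU_prob (d := d) one_pos
  have h3 := UU_prob (d := d) hε
  have e : sumLaw (law a b ya yb ε) {b, c} = (UU d ε).conv ((hf yb).conv (UU d 1)) := by
    rw [sumLaw_insert _ (by simpa using hbc), sumLaw_singleton, law, law, if_neg hab.symm,
      if_pos rfl, if_neg hac.symm, if_neg hbc.symm, Measure.conv_comm (hf yb) (UU d ε),
      Measure.conv_assoc]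
  refine ep_bounds hd _ h.pb (by linarith) ?_ (K := box 0 (1 + ε) ∪ box yb (1 + ε))
    ((measurable_box _ _).union (measurable_box _ _)) ?_ (h.vb (1 + ε) (by linarith))
  · rw [e]
    exact conv_le _ _ h.lb
  · refine sumLaw_supp _ (supp (ε := ε) a b ya yb) (law_supp a b ya yb hε)
      (supp_meas a b ya yb) _ ((measurable_box _ _).union (measurable_box _ _)) fun ω hω => ?_
    have ha := hω b
    have hc := hω c
    rw [supp, if_neg hab.symm, if_pos rfl] at ha
    rw [supp, if_neg hac.symm, if_neg hbc.symm, mem_box] at hc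
    rw [Finset.sum_pair hbc]
    rcases ha with ha | ha
    · left
      rw [mem_box] at ha ⊢
      intro j
      have := ha j; have := hc j
      simp only [Pi.add_apply, Pi.zero_apply] at *
      constructor <;> linarith
    · right
      rw [mem_box] at ha ⊢
      intro j
      have := ha j; have := hc j
      simp only [Pi.add_apply, Pi.zero_apply] at *
      constructor <;> linarith

include h hε hd hab hac hbc in
lemma val_abc : qq d mc ≤ entropyPower (sumLaw (law a b ya yb ε) {a, b, c}) ∧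
    entropyPower (sumLaw (law a b ya yb ε) {a, b, c}) ≤ qq d mc * (1 + 2 * ε) ^ 2 := by
  have h1 := law_prob (n := n) a b ya yb hε
  have h2 := UU_prob (d := d) one_pos
  have h3 := UU_prob (d := d) hε
  have e : sumLaw (law a b ya yb ε) {a, b, c} =
      (UU d ε).conv ((UU d ε).conv ((hf ya).conv ((hf yb).conv (UU d 1)))) := by
    rw [sumLaw_insert _ (by simp [hab, hac]), sumLaw_insert _ (by simpa using hbc),
      sumLaw_singleton, law, law, law, if_pos rfl, if_neg hab.symm,
      if_pos rfl, if_neg hac.symm, if_neg hbc.symm, Measure.conv_comm (hf ya) (UU d ε),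
      Measure.conv_comm (hf yb) (UU d ε), Measure.conv_assoc (UU d ε) (hf yb),
      Measure.conv_assoc (UU d ε) (hf ya), ← Measure.conv_assoc (hf ya) (UU d ε),
      Measure.conv_comm (hf ya) (UU d ε), Measure.conv_assoc (UU d ε) (hf ya)]
  refine ep_bounds hd _ h.pc (by linarith) ?_ (K := (box 0 (1 + 2 * ε) ∪ box ya (1 + 2 * ε)) ∪
    (box yb (1 + 2 * ε) ∪ box (ya + yb) (1 + 2 * ε)))
    (((measurable_box _ _).union (measurable_box _ _)).union
      ((measurable_box _ _).union (measurable_box _ _))) ?_ (h.vc (1 + 2 * ε) (by linarith))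
  · rw [e]
    exact conv_le _ _ (conv_le _ _ h.lc)
  · refine sumLaw_supp _ (supp (ε := ε) a b ya yb) (law_supp a b ya yb hε)
      (supp_meas a b ya yb) _ (((measurable_box _ _).union (measurable_box _ _)).union
      ((measurable_box _ _).union (measurable_box _ _))) fun ω hω => ?_
    have ha := hω a
    have hb := hω b
    have hc := hω c
    rw [supp, if_pos rfl] at ha
    rw [supp, if_neg hab.symm, if_pos rfl] at hb
    rw [supp, if_neg hac.symm, if_neg hbc.symm, mem_box] at hc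
    rw [Finset.sum_insert (by simp [hab, hac]), Finset.sum_pair hbc]
    rcases ha with ha | ha <;> rcases hb with hb | hb
    · left; left
      rw [mem_box] at ha hb ⊢
      intro j
      have := ha j; have := hb j; have := hc j
      simp only [Pi.add_apply, Pi.zero_apply] at *
      constructor <;> linarith
    · right; left
      rw [mem_box] at ha hb ⊢
      intro j
      have := ha j; have := hb j; have := hc j
      simp only [Pi.add_apply, Pi.zero_apply] at *
      constructor <;> linarith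
    · left; right
      rw [mem_box] at ha hb ⊢
      intro j
      have := ha j; have := hb j; have := hc j
      simp only [Pi.add_apply, Pi.zero_apply] at *
      constructor <;> linarith
    · right; right
      rw [mem_box] at ha hb ⊢
      intro j
      have := ha j; have := hb j; have := hc j
      simp only [Pi.add_apply, Pi.zero_apply] at *
      constructor <;> linarith

end four

section shifts

lemma UU_one_le : UU d 1 ≤ ENNReal.ofReal 1⁻¹ • (volume : Measure (Fin d → ℝ)) := by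
  have := UU_le (d := d) 1
  rwa [one_pow] at this

lemma UU_one_le' : UU d 1 ≤ (1 : ℝ≥0∞) • (volume : Measure (Fin d → ℝ)).restrict (box 0 1) := by
  rw [UU, one_pow, inv_one, ENNReal.ofReal_one]

lemma hf_half (y : Fin d → ℝ) (j : Fin d) (hy : 3 ≤ y j) :
    (hf y).conv (UU d 1) ≤ (2⁻¹ : ℝ≥0∞) • (volume : Measure (Fin d → ℝ)).restrict
      (box 0 1 ∪ (fun x => -y + x) ⁻¹' box 0 1) := by
  have h2 := UU_prob (d := d) one_pos
  have := hf_conv_le y (UU d 1) (measurable_box 0 1) UU_one_le' fun x hx hx' => by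
    rw [mem_box] at hx hx'
    have e1 := hx j
    have e2 := hx' j
    simp only [Pi.zero_apply, Pi.add_apply] at e1 e2
    linarith
  rwa [mul_one] at this

lemma two_inv : (2⁻¹ : ℝ≥0∞) = ENNReal.ofReal (2 : ℝ)⁻¹ := by
  rw [ENNReal.ofReal_inv_of_pos two_pos, ENNReal.ofReal_ofNat]

lemma restrict_le' {c : ℝ≥0∞} {K : Set (Fin d → ℝ)} {μ : Measure (Fin d → ℝ)}
    (h : μ ≤ c • (volume : Measure (Fin d → ℝ)).restrict K) :
    μ ≤ c • (volume : Measure (Fin d → ℝ)) := by
  refine h.trans (Measure.le_iff.2 fun s hs => ?_)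
  rw [Measure.smul_apply, Measure.smul_apply]
  exact mul_le_mul_right (Measure.restrict_apply_le _ _) _

lemma vol_one (y : Fin d → ℝ) {t : ℝ} (ht : 1 ≤ t) :
    volume (box y t) = ENNReal.ofReal (t ^ d) := vol_box _ (by linarith)

lemma vol_two (y y' : Fin d → ℝ) {t : ℝ} (ht : 1 ≤ t) :
    volume (box y t ∪ box y' t) ≤ ENNReal.ofReal (2 * t ^ d) := by
  refine (measure_union_le _ _).trans ?_
  rw [vol_one _ ht, vol_one _ ht, ← ENNReal.ofReal_add (by positivity) (by positivity), two_mul]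

lemma half_two (y : Fin d → ℝ) (j : Fin d) (hy : 3 ≤ y j) :
    (hf y).conv (UU d 1) ≤ ENNReal.ofReal (2 : ℝ)⁻¹ • (volume : Measure (Fin d → ℝ)) := by
  rw [← two_inv]
  exact restrict_le' (hf_half y j hy)

variable (j₀ : Fin d)

/-- The vector with coordinate `r` at `j₀` and `0` elsewhere. -/
noncomputable def sv (r : ℝ) : Fin d → ℝ := fun j => if j = j₀ then r else 0

lemma sv_self (r : ℝ) : sv j₀ r j₀ = r := if_pos rfl

lemma sv_bd {r : ℝ} (h0 : 0 ≤ r) (h8 : r ≤ 8) (j : Fin d) : 0 ≤ sv j₀ r j ∧ sv j₀ r j ≤ 8 := by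
  unfold sv
  split_ifs
  · exact ⟨h0, h8⟩
  · norm_num

lemma zero_bd (j : Fin d) : (0 : ℝ) ≤ (0 : Fin d → ℝ) j ∧ (0 : Fin d → ℝ) j ≤ 8 := by simp

lemma shift00 : Shift (0 : Fin d → ℝ) 0 1 1 1 := by
  have h2 := UU_prob (d := d) one_pos
  refine ⟨one_pos, one_pos, one_pos, zero_bd, zero_bd, conv_le _ _ UU_one_le,
    conv_le _ _ UU_one_le, conv_le _ _ (conv_le _ _ UU_one_le), ?_, ?_, ?_⟩
  · intro t ht
    rw [Set.union_self, vol_one _ ht, one_mul]
  · intro t ht
    rw [Set.union_self, vol_one _ ht, one_mul]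
  · intro t ht
    rw [add_zero, Set.union_self, Set.union_self, vol_one _ ht, one_mul]

lemma shift30 : Shift (sv j₀ 3) 0 2 1 2 := by
  have h2 := UU_prob (d := d) one_pos
  refine ⟨two_pos, one_pos, two_pos, sv_bd j₀ (by norm_num) (by norm_num), zero_bd,
    half_two _ j₀ (sv_self j₀ 3).ge, conv_le _ _ UU_one_le, ?_, ?_, ?_, ?_⟩
  · have e : (hf (sv j₀ 3)).conv ((hf 0).conv (UU d 1)) =
        (hf 0).conv ((hf (sv j₀ 3)).conv (UU d 1)) := by
      rw [← Measure.conv_assoc, Measure.conv_comm (hf (sv j₀ 3)) (hf 0), Measure.conv_assoc]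
    rw [e]
    exact conv_le _ _ (half_two _ j₀ (sv_self j₀ 3).ge)
  · intro t ht
    exact vol_two _ _ ht
  · intro t ht
    rw [Set.union_self, vol_one _ ht, one_mul]
  · intro t ht
    rw [add_zero, Set.union_self]
    exact vol_two _ _ ht

lemma shift03 : Shift (0 : Fin d → ℝ) (sv j₀ 3) 1 2 2 := by
  have h2 := UU_prob (d := d) one_pos
  refine ⟨one_pos, two_pos, two_pos, zero_bd, sv_bd j₀ (by norm_num) (by norm_num),
    conv_le _ _ UU_one_le, half_two _ j₀ (sv_self j₀ 3).ge,
    conv_le _ _ (half_two _ j₀ (sv_self j₀ 3).ge), ?_, ?_, ?_⟩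
  · intro t ht
    rw [Set.union_self, vol_one _ ht, one_mul]
  · intro t ht
    exact vol_two _ _ ht
  · intro t ht
    rw [zero_add, Set.union_self, Set.union_self]
    exact vol_two _ _ ht

lemma shift36 : Shift (sv j₀ 3) (sv j₀ 6) 2 2 4 := by
  have h2 := UU_prob (d := d) one_pos
  refine ⟨two_pos, two_pos, by norm_num, sv_bd j₀ (by norm_num) (by norm_num),
    sv_bd j₀ (by norm_num) (by norm_num), half_two _ j₀ (sv_self j₀ 3).ge,
    half_two _ j₀ (by rw [sv_self]; norm_num), ?_, ?_, ?_, ?_⟩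
  · have h3 := hf_half (sv j₀ 6) j₀ (by rw [sv_self]; norm_num)
    have h4 := hf_conv_le (sv j₀ 3) ((hf (sv j₀ 6)).conv (UU d 1))
      ((measurable_box 0 1).union ((measurable_box 0 1).preimage (by fun_prop))) h3 (by
        intro x hx hx'
        rcases hx with hx | hx <;> rcases hx' with hx' | hx'
        · rw [mem_box] at hx hx'
          have e1 := hx j₀
          have e2 := hx' j₀
          simp only [Pi.zero_apply, Pi.add_apply, sv_self] at e1 e2
          linarith
        · rw [Set.mem_preimage] at hx'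
          rw [mem_box] at hx hx'
          have e1 := hx j₀
          have e2 := hx' j₀
          simp only [Pi.zero_apply, Pi.add_apply, Pi.neg_apply, sv_self] at e1 e2
          linarith
        · rw [Set.mem_preimage] at hx
          rw [mem_box] at hx hx'
          have e1 := hx j₀
          have e2 := hx' j₀
          simp only [Pi.zero_apply, Pi.add_apply, Pi.neg_apply, sv_self] at e1 e2
          linarith
        · rw [Set.mem_preimage] at hx hx'
          rw [mem_box] at hx hx'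
          have e1 := hx j₀
          have e2 := hx' j₀
          simp only [Pi.zero_apply, Pi.add_apply, Pi.neg_apply, sv_self] at e1 e2
          linarith)
    have e : (2⁻¹ * 2⁻¹ : ℝ≥0∞) = ENNReal.ofReal (4 : ℝ)⁻¹ := by
      rw [two_inv, ← ENNReal.ofReal_mul (by norm_num)]
      norm_num
    rw [← e]
    exact restrict_le' h4
  · intro t ht
    exact vol_two _ _ ht
  · intro t ht
    exact vol_two _ _ ht
  · intro t ht
    refine (measure_union_le _ _).trans ?_
    refine (add_le_add (vol_two _ _ ht) (vol_two _ _ ht)).trans (le_of_eq ?_)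
    rw [← ENNReal.ofReal_add (by positivity) (by positivity)]
    congr 1
    ring

end shifts

section limit

variable {n : ℕ} {a b c : Fin n} {ya yb : Fin d → ℝ} {ma mb mc : ℝ}

/-- The points of the region attached to the small parameter `1 / (k + 1)`. -/
noncomputable def pt (a b : Fin n) (ya yb : Fin d → ℝ) (k : ℕ) :
    {S : Finset (Fin n) // S.Nonempty} → ℝ :=
  fun S => entropyPower (sumLaw (law a b ya yb (1 / ((k : ℝ) + 1))) S.1)

lemma eps_pos (k : ℕ) : (0 : ℝ) < 1 / ((k : ℝ) + 1) := by positivity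

lemma eps_le (k : ℕ) : (1 : ℝ) / ((k : ℝ) + 1) ≤ 1 := by
  rw [div_le_one (by positivity)]
  have : (0 : ℝ) ≤ k := Nat.cast_nonneg k
  linarith

lemma pt_mem (h : Shift ya yb ma mb mc) (k : ℕ) : pt a b ya yb k ∈ GammaDim d n :=
  (point_mem (eps_pos k) (eps_le k) h).1

lemma pt_bd (h : Shift ya yb ma mb mc) (k : ℕ) :
    pt a b ya yb k ∈ Set.Icc (0 : {S : Finset (Fin n) // S.Nonempty} → ℝ)
      (fun _ => Real.exp ((2 / (d : ℝ)) * Real.log ((2 * (n * 10)) ^ d))) := by
  refine ⟨fun S => (Real.exp_pos _).le, fun S => ?_⟩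
  exact (point_mem (eps_pos k) (eps_le k) h).2 S.1 S.2

lemma eps_lim : Tendsto (fun k : ℕ => (1 : ℝ) / ((k : ℝ) + 1)) atTop (𝓝 0) :=
  tendsto_one_div_add_atTop_nhds_zero_nat

lemma pt_c (hd : 1 ≤ d) (hac : a ≠ c) (hbc : b ≠ c) (k : ℕ) :
    pt a b ya yb k ⟨{c}, by simp⟩ = 1 := val_c (eps_pos k) hd hac hbc

lemma pt_ac (h : Shift ya yb ma mb mc) (hd : 1 ≤ d) (hac : a ≠ c) (hbc : b ≠ c) :
    Tendsto (fun k => pt a b ya yb k ⟨{a, c}, by simp⟩) atTop (𝓝 (qq d ma)) := by
  have h1 : Tendsto (fun k : ℕ => qq d ma * (1 + (1 : ℝ) / ((k : ℝ) + 1)) ^ 2) atTop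
      (𝓝 (qq d ma * (1 + 0) ^ 2)) := ((eps_lim.const_add 1).pow 2).const_mul _
  rw [add_zero, one_pow, mul_one] at h1
  exact tendsto_of_tendsto_of_tendsto_of_le_of_le tendsto_const_nhds h1
    (fun k => (val_ac (eps_pos k) h hd hac hbc).1) fun k => (val_ac (eps_pos k) h hd hac hbc).2

lemma pt_bc (h : Shift ya yb ma mb mc) (hd : 1 ≤ d) (hab : a ≠ b) (hac : a ≠ c) (hbc : b ≠ c) :
    Tendsto (fun k => pt a b ya yb k ⟨{b, c}, by simp⟩) atTop (𝓝 (qq d mb)) := by
  have h1 : Tendsto (fun k : ℕ => qq d mb * (1 + (1 : ℝ) / ((k : ℝ) + 1)) ^ 2) atTop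
      (𝓝 (qq d mb * (1 + 0) ^ 2)) := ((eps_lim.const_add 1).pow 2).const_mul _
  rw [add_zero, one_pow, mul_one] at h1
  exact tendsto_of_tendsto_of_tendsto_of_le_of_le tendsto_const_nhds h1
    (fun k => (val_bc (eps_pos k) h hd hab hac hbc).1)
    fun k => (val_bc (eps_pos k) h hd hab hac hbc).2

lemma pt_abc (h : Shift ya yb ma mb mc) (hd : 1 ≤ d) (hab : a ≠ b) (hac : a ≠ c) (hbc : b ≠ c) :
    Tendsto (fun k => pt a b ya yb k ⟨{a, b, c}, by simp⟩) atTop (𝓝 (qq d mc)) := by
  have h1 : Tendsto (fun k : ℕ => qq d mc * (1 + 2 * ((1 : ℝ) / ((k : ℝ) + 1))) ^ 2) atTop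
      (𝓝 (qq d mc * (1 + 2 * 0) ^ 2)) :=
    (((eps_lim.const_mul 2).const_add 1).pow 2).const_mul _
  rw [mul_zero, add_zero, one_pow, mul_one] at h1
  exact tendsto_of_tendsto_of_tendsto_of_le_of_le tendsto_const_nhds h1
    (fun k => (val_abc (eps_pos k) h hd hab hac hbc).1)
    fun k => (val_abc (eps_pos k) h hd hab hac hbc).2

/-- The limit points. -/
lemma exists_limit (h : Shift ya yb ma mb mc) (hd : 1 ≤ d) (hab : a ≠ b) (hac : a ≠ c)
    (hbc : b ≠ c) : ∃ v ∈ closure (GammaDim d n), v ⟨{c}, by simp⟩ = 1 ∧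
      v ⟨{a, c}, by simp⟩ = qq d ma ∧ v ⟨{b, c}, by simp⟩ = qq d mb ∧
      v ⟨{a, b, c}, by simp⟩ = qq d mc := by
  obtain ⟨v, -, φ, hφ, hv⟩ := isCompact_Icc.tendsto_subseq (pt_bd (a := a) (b := b) h)
  have hco : ∀ S, Tendsto (fun k => pt a b ya yb (φ k) S) atTop (𝓝 (v S)) := fun S =>
    ((continuous_apply S).tendsto v).comp hv
  refine ⟨v, mem_closure_of_tendsto hv (Eventually.of_forall fun k => pt_mem h (φ k)),
    ?_, ?_, ?_, ?_⟩
  · refine tendsto_nhds_unique (hco _) ?_
    simp only [pt_c hd hac hbc]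
    exact tendsto_const_nhds
  · exact tendsto_nhds_unique (hco _) ((pt_ac h hd hac hbc).comp hφ.tendsto_atTop)
  · exact tendsto_nhds_unique (hco _) ((pt_bc h hd hab hac hbc).comp hφ.tendsto_atTop)
  · exact tendsto_nhds_unique (hco _) ((pt_abc h hd hab hac hbc).comp hφ.tendsto_atTop)

end limit

lemma qq_one : qq d 1 = 1 := by simp [qq]

lemma qq_two (hd : 1 ≤ d) : 1 < qq d 2 := by
  have hd' : (0 : ℝ) < d := by exact_mod_cast hd
  rw [qq, Real.one_lt_exp_iff]
  have := Real.log_pos (one_lt_two)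
  positivity

lemma qq_four : qq d 4 = qq d 2 ^ 2 := by
  have : (4 : ℝ) = 2 ^ 2 := by norm_num
  rw [qq, qq, this, Real.log_pow, ← Real.exp_nat_mul]
  congr 1
  push_cast
  ring

/-- Coordinatewise weighted power mean of exponent `p`, with weights `t` and `1 - t`. -/
noncomputable def powerMean {ι : Type*} (p t : ℝ) (v w : ι → ℝ) : ι → ℝ :=
  fun i => (t * v i ^ p + (1 - t) * w i ^ p) ^ (1 / p)

/-- The inequality for points of the closure. -/
lemma closure_submodular {n : ℕ} {a b c : Fin n} (hab : a ≠ b) (hac : a ≠ c) (hbc : b ≠ c)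
    {u : {S : Finset (Fin n) // S.Nonempty} → ℝ} (hu : u ∈ closure (Gamma n)) :
    u ⟨{a, b, c}, by simp⟩ * u ⟨{c}, by simp⟩ ≤ u ⟨{a, c}, by simp⟩ * u ⟨{b, c}, by simp⟩ := by
  have hK : IsClosed {v : {S : Finset (Fin n) // S.Nonempty} → ℝ |
      v ⟨{a, b, c}, by simp⟩ * v ⟨{c}, by simp⟩ ≤
        v ⟨{a, c}, by simp⟩ * v ⟨{b, c}, by simp⟩} := by
    refine isClosed_le ?_ ?_
    · exact (continuous_apply _).mul (continuous_apply _)
    · exact (continuous_apply _).mul (continuous_apply _)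
  exact closure_minimal (fun v hv => gamma_submodular a b c hab hac hbc v hv) hK hu

lemma viol_pos {p t Q : ℝ} (hp : 0 < p) (ht : t ∈ Set.Ioo (0 : ℝ) 1) (hQ : 1 < Q) :
    (t * Q ^ p + (1 - t) * 1 ^ p) ^ (1 / p) * (t * Q ^ p + (1 - t) * 1 ^ p) ^ (1 / p) <
      (t * (Q ^ 2) ^ p + (1 - t) * 1 ^ p) ^ (1 / p) * (t * 1 ^ p + (1 - t) * 1 ^ p) ^ (1 / p) := by
  obtain ⟨t0, t1⟩ := ht
  have hQ0 : 0 < Q := by linarith
  have hq : 1 < Q ^ p := Real.one_lt_rpow hQ hp
  have e1 : (Q ^ 2) ^ p = (Q ^ p) ^ 2 := by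
    rw [← Real.rpow_natCast, ← Real.rpow_natCast, ← Real.rpow_mul hQ0.le, ← Real.rpow_mul hQ0.le,
      mul_comm]
  have e2 : t * (1 : ℝ) ^ p + (1 - t) * 1 ^ p = 1 := by
    rw [Real.one_rpow]; ring
  rw [e2, Real.one_rpow (1 / p), mul_one, e1, Real.one_rpow p, mul_one]
  set q := Q ^ p with hqd
  have hX : 0 < t * q + (1 - t) := by nlinarith
  rw [← Real.mul_rpow hX.le hX.le]
  refine Real.rpow_lt_rpow (by positivity) ?_ (by positivity)
  nlinarith [mul_pos (mul_pos t0 (sub_pos.2 t1)) (pow_pos (sub_pos.2 hq) 2)]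

lemma viol_neg {p t Q : ℝ} (hp : p < 0) (ht : t ∈ Set.Ioo (0 : ℝ) 1) (hQ : 1 < Q) :
    (t * Q ^ p + (1 - t) * 1 ^ p) ^ (1 / p) * (t * 1 ^ p + (1 - t) * Q ^ p) ^ (1 / p) <
      (t * Q ^ p + (1 - t) * Q ^ p) ^ (1 / p) * (t * 1 ^ p + (1 - t) * 1 ^ p) ^ (1 / p) := by
  obtain ⟨t0, t1⟩ := ht
  have hQ0 : 0 < Q := by linarith
  have hq : Q ^ p < 1 := Real.rpow_lt_one_of_one_lt_of_neg hQ hp
  have hq0 : 0 < Q ^ p := Real.rpow_pos_of_pos hQ0 p
  have e2 : t * (1 : ℝ) ^ p + (1 - t) * 1 ^ p = 1 := by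
    rw [Real.one_rpow]; ring
  rw [e2, Real.one_rpow (1 / p), mul_one, Real.one_rpow p, mul_one, mul_one]
  set q := Q ^ p with hqd
  have t1' : 0 < 1 - t := sub_pos.2 t1
  have hX : 0 < t * q + (1 - t) := by positivity
  have hY : 0 < t + (1 - t) * q := by positivity
  rw [← Real.mul_rpow hX.le hY.le]
  refine Real.rpow_lt_rpow_of_neg (by positivity) ?_ (by
    rw [one_div]; exact inv_lt_zero.2 hp)
  nlinarith [mul_pos (mul_pos t0 t1') (pow_pos (sub_pos.2 hq) 2)]

lemma qq_pos (m : ℝ) : 0 < qq d m := Real.exp_pos _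

lemma mean_lim {x y : ℕ → ℝ} {X Y p t : ℝ} (hx : Tendsto x atTop (𝓝 X))
    (hy : Tendsto y atTop (𝓝 Y)) (hX : 0 < X) (hY : 0 < Y) (ht : t ∈ Set.Ioo (0 : ℝ) 1) :
    Tendsto (fun k => (t * x k ^ p + (1 - t) * y k ^ p) ^ (1 / p)) atTop
      (𝓝 ((t * X ^ p + (1 - t) * Y ^ p) ^ (1 / p))) := by
  have h1 := Real.rpow_pos_of_pos hX p
  have h2 := Real.rpow_pos_of_pos hY p
  have h3 : 0 < 1 - t := sub_pos.2 ht.2
  have h4 : 0 < t * X ^ p + (1 - t) * Y ^ p :=
    add_pos (mul_pos ht.1 h1) (mul_pos h3 h2)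
  refine Tendsto.rpow_const ?_ (Or.inl h4.ne')
  exact ((hx.rpow_const (Or.inl hX.ne')).const_mul t).add
    ((hy.rpow_const (Or.inl hY.ne')).const_mul (1 - t))

/-- The power mean of two suitable points of `Γ_d(n)` is not in the closure of `Γ(n)`. -/
lemma no_mean {n : ℕ} {a b c : Fin n} (hab : a ≠ b) (hac : a ≠ c) (hbc : b ≠ c) (hd : 1 ≤ d)
    {ya yb ya' yb' : Fin d → ℝ} {ma mb mc ma' mb' mc' : ℝ} (h : Shift ya yb ma mb mc)
    (h' : Shift ya' yb' ma' mb' mc') {p t : ℝ} (ht : t ∈ Set.Ioo (0 : ℝ) 1)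
    (hv : (t * qq d ma ^ p + (1 - t) * qq d ma' ^ p) ^ (1 / p) *
        (t * qq d mb ^ p + (1 - t) * qq d mb' ^ p) ^ (1 / p) <
      (t * qq d mc ^ p + (1 - t) * qq d mc' ^ p) ^ (1 / p) *
        (t * 1 ^ p + (1 - t) * 1 ^ p) ^ (1 / p)) :
    ∃ v ∈ GammaDim d n, ∃ w ∈ GammaDim d n, powerMean p t v w ∉ closure (Gamma n) := by
  by_contra hcon
  push Not at hcon
  have h1 := fun k => closure_submodular hab hac hbc
    (hcon (pt a b ya yb k) (pt_mem h k) (pt a b ya' yb' k) (pt_mem h' k))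
  have c1 : ∀ k, powerMean p t (pt a b ya yb k) (pt a b ya' yb' k) ⟨{c}, by simp⟩ =
      (t * 1 ^ p + (1 - t) * 1 ^ p) ^ (1 / p) := by
    intro k
    rw [powerMean, pt_c hd hac hbc, pt_c hd hac hbc]
  have l1 := (mean_lim (p := p) (pt_abc h hd hab hac hbc) (pt_abc h' hd hab hac hbc)
    (qq_pos _) (qq_pos _) ht).mul_const ((t * 1 ^ p + (1 - t) * 1 ^ p) ^ (1 / p))
  have l2 := (mean_lim (p := p) (pt_ac h hd hac hbc) (pt_ac h' hd hac hbc)
    (qq_pos _) (qq_pos _) ht).mul
    (mean_lim (p := p) (pt_bc h hd hab hac hbc) (pt_bc h' hd hab hac hbc)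
    (qq_pos _) (qq_pos _) ht)
  have h2 := le_of_tendsto_of_tendsto' l1 l2 fun k => by
    have := h1 k
    rw [c1 k] at this
    exact this
  exact absurd h2 (not_le.2 hv)

/-- For all `n ≥ 3` and `d ≥ 1` (in particular `d = 1`): there are two points of the closure of
`Γ_d(n)` no intermediate power mean of which, of any exponent `p > 0` and with any weights
`t`, `1 - t`, belongs to the closure of `Γ(n)`; for each exponent `p ≠ 0` and each weight there are
points of `Γ_d(n)` with this property; the closures of `Γ_d(n)` and of `Γ(n)` are not convex. -/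
theorem result : ∀ n : ℕ, 3 ≤ n → ∀ d : ℕ, 1 ≤ d →
    (∃ v ∈ closure (GammaDim d n), ∃ w ∈ closure (GammaDim d n), ∀ p : ℝ, 0 < p →
      ∀ t ∈ Set.Ioo (0 : ℝ) 1, powerMean p t v w ∉ closure (Gamma n)) ∧
    (∀ p : ℝ, p ≠ 0 → ∀ t ∈ Set.Ioo (0 : ℝ) 1, ∃ v ∈ GammaDim d n, ∃ w ∈ GammaDim d n,
      powerMean p t v w ∉ closure (Gamma n)) ∧
    ¬ Convex ℝ (closure (GammaDim d n)) ∧ ¬ Convex ℝ (closure (Gamma n)) := by
  intro n hn d hd
  set a : Fin n := ⟨0, by omega⟩ with ha
  set b : Fin n := ⟨1, by omega⟩ with hb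
  set c : Fin n := ⟨2, by omega⟩ with hc
  have hab : a ≠ b := by simp [ha, hb]
  have hac : a ≠ c := by simp [ha, hc]
  have hbc : b ≠ c := by simp [hb, hc]
  let j₀ : Fin d := ⟨0, hd⟩
  have hQ := qq_two hd
  have hsub : closure (GammaDim d n) ⊆ closure (Gamma n) :=
    closure_mono fun v hv => ⟨d, hd, hv⟩
  have part1 : ∃ v ∈ closure (GammaDim d n), ∃ w ∈ closure (GammaDim d n), ∀ p : ℝ, 0 < p →
      ∀ t ∈ Set.Ioo (0 : ℝ) 1, powerMean p t v w ∉ closure (Gamma n) := by
    obtain ⟨v, hv, v1, v2, v3, v4⟩ := exists_limit (shift36 j₀) hd hab hac hbc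
    obtain ⟨w, hw, w1, w2, w3, w4⟩ := exists_limit (shift00 (d := d)) hd hab hac hbc
    refine ⟨v, hv, w, hw, fun p hp t ht hu => ?_⟩
    have h1 := closure_submodular hab hac hbc hu
    simp only [powerMean, v1, v2, v3, v4, w1, w2, w3, w4, qq_one, qq_four] at h1
    exact absurd h1 (not_le.2 (viol_pos hp ht hQ))
  refine ⟨part1, ?_, ?_, ?_⟩
  · intro p hp t ht
    rcases lt_or_gt_of_ne hp with hp | hp
    · refine no_mean hab hac hbc hd (shift30 j₀) (shift03 j₀) ht ?_
      rw [qq_one]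
      exact viol_neg hp ht hQ
    · refine no_mean hab hac hbc hd (shift36 j₀) (shift00 (d := d)) ht ?_
      rw [qq_one, qq_four]
      exact viol_pos hp ht hQ
  all_goals
    intro hconv
    obtain ⟨v, hv, w, hw, h⟩ := part1
    have h1 := h 1 one_pos (1 / 2) ⟨by norm_num, by norm_num⟩
    apply h1
    have e : powerMean 1 (1 / 2) v w = (1 / 2 : ℝ) • v + (1 / 2 : ℝ) • w := by
      funext S
      simp only [powerMean, Real.rpow_one, div_one, Pi.add_apply, Pi.smul_apply, smul_eq_mul]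
      ring
    rw [e]
  · exact hsub (hconv hv hw (by norm_num) (by norm_num) (by norm_num))
  · exact hconv (hsub hv) (hsub hw) (by norm_num) (by norm_num) (by norm_num)

end Pool.Agent.Results.MP_04c77c_pr.PowerMeans
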